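import Pool.Agent.KS6_80.WR.F

/-!
# Waring rank after adjoining a new variable: degrees up to three, and the optimal constant

`IsPowerSum`, `waringRank` and `adjoin` are the definitions of the starting file
`MP_1e0c69_ag.NewVariableFails`, which proves that (i) fails for cubic forms in `n ≥ 3` variables.
-/

set_option autoImplicit false

namespace Pool.Agent.Results.MP_1e0c69_ag.CubicForms

open MvPolynomial Pool.Agent.Results.MP_1e0c69_ag.NewVariableFails

/-- The minimum of `WR (f + v g)`, `v` running over the linear forms in the `n` variables. -/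
noncomputable def minRank {n : ℕ} (d : ℕ) (f g : MvPolynomial (Fin n) ℂ) : ℕ∞ :=
  ⨅ v ∈ {v : MvPolynomial (Fin n) ℂ | v.IsHomogeneous 1}, waringRank d (f + v * g)

/-- The assertion of Q1, both parts, for forms of degree `d` in `n` variables. -/
def QuestionAt (n d : ℕ) : Prop :=
  (∀ f g : MvPolynomial (Fin n) ℂ, f.IsHomogeneous d → g.IsHomogeneous (d - 1) → f ≠ 0 → g ≠ 0 →
    d + minRank d f g ≤ waringRank d (adjoin f g)) ∧
  (∀ f m : MvPolynomial (Fin n) ℂ, f.IsHomogeneous d → m.IsHomogeneous 1 → f ≠ 0 → m ≠ 0 →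
    waringRank d (adjoin f (m ^ (d - 1))) = d + minRank d f (m ^ (d - 1)))

/-- (1) For all `n`, all `d ≥ 2` and all forms `f`, `g ≠ 0` of degrees `d`, `d - 1` in `n` variables
`WR (f + u g) ≥ 2 + min_v WR (f + v g)`.

(2) For cubic forms the constant `2` is optimal, in any number `n ≥ 3` of variables: there are `f`,
`g` with `WR (f + u g) = n + 2` and `min_v WR (f + v g) = n`.

(3) For `d ≤ 3` the assertion of Q1, both parts, is true for the forms of degree `d` in `n` variables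
if and only if `d ≤ 2` or `n ≤ 2`. -/
theorem result :
    (∀ (n d : ℕ), 2 ≤ d → ∀ f g : MvPolynomial (Fin n) ℂ, f.IsHomogeneous d →
      g.IsHomogeneous (d - 1) → g ≠ 0 → 2 + minRank d f g ≤ waringRank d (adjoin f g)) ∧
    (∀ n : ℕ, 3 ≤ n → ∃ f g : MvPolynomial (Fin n) ℂ, f.IsHomogeneous 3 ∧ g.IsHomogeneous 2 ∧
      f ≠ 0 ∧ g ≠ 0 ∧ waringRank 3 (adjoin f g) = n + 2 ∧ minRank 3 f g = n) ∧
    (∀ n d : ℕ, 1 ≤ d → d ≤ 3 → (QuestionAt n d ↔ d ≤ 2 ∨ n ≤ 2)) := by
  refine ⟨fun n d hd f g hf hg hg0 => Pool.Agent.KS6_80.WR.lower hd hf hg hg0, fun n hn =>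
    Pool.Agent.KS6_80.WR.sharp hn, fun n d hd1 hd3 => ⟨fun h => ?_, fun h => ?_⟩⟩
  · by_contra hcon
    push Not at hcon
    obtain ⟨hd, hn⟩ := hcon
    have hd' : d = 3 := by omega
    subst hd'
    obtain ⟨f, g, hf, hg, hf0, hg0, h1, h2⟩ := Pool.Agent.KS6_80.WR.sharp (n := n) (by omega)
    have h3 := h.1 f g hf hg hf0 hg0
    have h2' : minRank 3 f g = n := h2
    rw [h1, h2'] at h3
    have h4 : ((3 + n : ℕ) : ℕ∞) ≤ ((n + 2 : ℕ) : ℕ∞) := by
      push_cast
      exact_mod_cast h3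
    have h5 : 3 + n ≤ n + 2 := by exact_mod_cast h4
    omega
  · have hi : ∀ f g : MvPolynomial (Fin n) ℂ, f.IsHomogeneous d → g.IsHomogeneous (d - 1) → g ≠ 0 →
        d + minRank d f g ≤ waringRank d (adjoin f g) := by
      intro f g hf hg hg0
      interval_cases d
      · exact_mod_cast Pool.Agent.KS6_80.WR.degree_one hf hg hg0
      · exact_mod_cast Pool.Agent.KS6_80.WR.lower le_rfl hf hg hg0
      · have hn : n ≤ 2 := by omega
        exact_mod_cast Pool.Agent.KS6_80.WR.cubic_small hn hg0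
    refine ⟨fun f g hf hg _ hg0 => hi f g hf hg hg0, fun f m hf hm _ hm0 => ?_⟩
    have hg : (m ^ (d - 1)).IsHomogeneous (d - 1) := by simpa using hm.pow (d - 1)
    exact le_antisymm (Pool.Agent.KS6_80.WR.upper hd1 hd3 f hm) (hi f _ hf hg (pow_ne_zero _ hm0))

end Pool.Agent.Results.MP_1e0c69_ag.CubicForms
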