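import Pool.Agent.KS6_2.WR.Rank
import Pool.Agent.KS6_2.WR.QuartLower

/-!
# Waring rank after adjoining a variable: quartic forms

For every `n ≥ 4` there are a quartic form `f` and a cubic form `g` in `n` variables with
`WR (f + u g) ≤ 2 n + 2 < 4 + (2 n - 1) ≤ 4 + min_v WR (f + v g)`.
-/

namespace Pool.Agent.Results.MP_1e0c69_ag.QuarticForms

open MvPolynomial Pool.Agent.KS6_2.WR

theorem result (n : ℕ) (hn : 4 ≤ n) :
    ∃ f g : MvPolynomial (Fin n) ℂ, f.IsHomogeneous 4 ∧ f ≠ 0 ∧ g.IsHomogeneous 3 ∧ g ≠ 0 ∧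
      WR 4 (adjoin f g) ≤ ((2 * n + 2 : ℕ) : ℕ∞) ∧ ((2 * n - 1 : ℕ) : ℕ∞) ≤ minWR 4 f g ∧
      WR 4 (adjoin f g) < 4 + minWR 4 f g := by
  have h1 : WR 4 (adjoin (fq n) (gq n)) ≤ ((2 * n + 2 : ℕ) : ℕ∞) := WR_le (powerSum_q n)
  have h2 : ((2 * n - 1 : ℕ) : ℕ∞) ≤ minWR 4 (fq n) (gq n) :=
    le_minWR fun v hv w hw => by exact_mod_cast quart_lower n hn v hv w hw
  refine ⟨fq n, gq n, fq_homog n, fq_ne_zero n hn, gq_homog n, gq_ne_zero n hn, h1, h2, ?_⟩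
  calc WR 4 (adjoin (fq n) (gq n)) ≤ ((2 * n + 2 : ℕ) : ℕ∞) := h1
    _ < ((4 + (2 * n - 1) : ℕ) : ℕ∞) := by
        have : 2 * n + 2 < 4 + (2 * n - 1) := by omega
        exact_mod_cast this
    _ = 4 + ((2 * n - 1 : ℕ) : ℕ∞) := by push_cast; rfl
    _ ≤ 4 + minWR 4 (fq n) (gq n) := by gcongr

end Pool.Agent.Results.MP_1e0c69_ag.QuarticForms
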